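import Mathlib

/-!
# Matrices without a scalar shift that is a Liouville matrix

For every `n ≥ 2` there is a real `n × n` matrix `A` (with entries `0` and square roots of primes)
such that `A - λ I` is a Liouville matrix for no real `λ`. For `n = 1` there is always such a `λ`.
-/

namespace Pool.Agent.Results.MP_14d1e0_nt.NoLiouvilleShift

/-- an integer vector as a real vector -/
def toReal {n : ℕ} (y : Fin n → ℤ) : Fin n → ℝ := fun i => (y i : ℝ)

/-- Liouville matrices: (1) `M y ≠ x` for all integer vectors `x`, `y`, not both zero; (2) for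
every `N > 0` there are integer vectors `x` and `y` with `‖y‖ > 1` and `‖M y - x‖ < ‖y‖ ^ (-N)`
(sup-norms). -/
def IsLiouville {m n : ℕ} (M : Matrix (Fin m) (Fin n) ℝ) : Prop :=
  (∀ (y : Fin n → ℤ) (x : Fin m → ℤ), (y ≠ 0 ∨ x ≠ 0) → M.mulVec (toReal y) ≠ toReal x) ∧
    ∀ N : ℝ, 0 < N → ∃ (x : Fin m → ℤ) (y : Fin n → ℤ), 1 < ‖toReal y‖ ∧
      ‖M.mulVec (toReal y) - toReal x‖ < ‖toReal y‖ ^ (-N)

/-- the norm form: `∏ (± √a u ± √b v - k)` -/
theorem norm_form (a b u v k : ℝ) (ha : 0 ≤ a) (hb : 0 ≤ b) :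
    (Real.sqrt a * u - Real.sqrt b * v - k) * ((Real.sqrt a * u - Real.sqrt b * v + k) *
      ((Real.sqrt a * u + Real.sqrt b * v - k) * (Real.sqrt a * u + Real.sqrt b * v + k))) =
      (a * u ^ 2 + b * v ^ 2 - k ^ 2) ^ 2 - 4 * (a * b) * (u * v) ^ 2 := by
  have h1 : Real.sqrt a ^ 2 = a := Real.sq_sqrt ha
  have h2 : Real.sqrt b ^ 2 = b := Real.sq_sqrt hb
  have h3 : (Real.sqrt a * u - Real.sqrt b * v - k) * ((Real.sqrt a * u - Real.sqrt b * v + k) *
      ((Real.sqrt a * u + Real.sqrt b * v - k) * (Real.sqrt a * u + Real.sqrt b * v + k))) =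
      (Real.sqrt a ^ 2 * u ^ 2 + Real.sqrt b ^ 2 * v ^ 2 - k ^ 2) ^ 2 -
        4 * (Real.sqrt a ^ 2 * Real.sqrt b ^ 2) * (u * v) ^ 2 := by ring
  rw [h3, h1, h2]

/-- for distinct primes `p`, `q` and `u ≠ 0` the norm is not zero -/
theorem norm_ne {p q : ℕ} (hp : p.Prime) (hq : q.Prime) (hpq : p ≠ q) (u v k : ℤ) (hu : u ≠ 0) :
    ((p : ℤ) * u ^ 2 + q * v ^ 2 - k ^ 2) ^ 2 - 4 * (p * q) * (u * v) ^ 2 ≠ 0 := by
  intro h
  have hsq : ∀ (c : ℕ) (x y : ℤ), ¬ IsSquare c → x ^ 2 = c * y ^ 2 → y = 0 := by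
    intro c x y hc hxy
    by_contra hy
    apply hc
    have h1 : (y ^ 2) ∣ (x ^ 2) := ⟨c, by rw [hxy]; ring⟩
    obtain ⟨z, rfl⟩ := (Int.pow_dvd_pow_iff two_ne_zero).1 h1
    have h2 : (c : ℤ) = z * z := by
      have h3 : y ^ 2 ≠ 0 := pow_ne_zero _ hy
      apply mul_left_cancel₀ h3
      linear_combination (-1 : ℤ) * hxy
    refine ⟨z.natAbs, ?_⟩
    have h4 : (c : ℤ) = (z.natAbs * z.natAbs : ℕ) := by
      rw [h2]
      push_cast
      rw [abs_mul_abs_self]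
    exact_mod_cast h4
  have hns : ¬ IsSquare (4 * (p * q)) := by
    rintro ⟨r, hr⟩
    have h2r : 2 ∣ r := by
      have : 2 ∣ r * r := by rw [← hr]; exact ⟨2 * (p * q), by ring⟩
      rcases (Nat.Prime.dvd_mul Nat.prime_two).1 this with h | h <;> exact h
    obtain ⟨s, rfl⟩ := h2r
    have hs : p * q = s * s := by nlinarith
    have hps : p ∣ s := by
      have : p ∣ s * s := ⟨q, hs.symm⟩
      rcases (Nat.Prime.dvd_mul hp).1 this with h | h <;> exact h
    obtain ⟨t, rfl⟩ := hps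
    have h5 : q = p * (t * t) := by
      apply Nat.eq_of_mul_eq_mul_left hp.pos
      rw [hs]
      ring
    have h6 : p ∣ q := ⟨t * t, h5⟩
    exact hpq ((Nat.prime_dvd_prime_iff_eq hp hq).1 h6)
  have h1 : ((p : ℤ) * u ^ 2 + q * v ^ 2 - k ^ 2) ^ 2 = ((4 * (p * q) : ℕ) : ℤ) * (u * v) ^ 2 := by
    push_cast
    linarith
  have h2 := hsq _ _ _ hns h1
  have hv : v = 0 := (mul_eq_zero.1 h2).resolve_left hu
  rw [h2, hv] at h1
  have h3 : k ^ 2 = (p : ℤ) * u ^ 2 := by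
    have h4 : (p : ℤ) * u ^ 2 + q * 0 ^ 2 - k ^ 2 = 0 := by
      apply pow_eq_zero_iff (two_ne_zero) |>.1
      rw [h1]
      ring
    linarith
  have hpns : ¬ IsSquare p := by
    rintro ⟨r, hr⟩
    exact (Nat.Prime.prime hp).irreducible.not_isSquare ⟨r, hr⟩
  exact hu (hsq p k u hpns h3)

/-- lower bound for `|√p u - √q v - k|` -/
theorem lower {p q : ℕ} (hp : p.Prime) (hq : q.Prime) (hpq : p ≠ q) (u v k : ℤ) (hu : u ≠ 0)
    (C : ℝ) (h1 : |Real.sqrt p * u - Real.sqrt q * v + k| ≤ C)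
    (h2 : |Real.sqrt p * u + Real.sqrt q * v - k| ≤ C)
    (h3 : |Real.sqrt p * u + Real.sqrt q * v + k| ≤ C) :
    1 ≤ |Real.sqrt p * u - Real.sqrt q * v - k| * C ^ 3 := by
  have hn := norm_form (p : ℝ) (q : ℝ) u v k (Nat.cast_nonneg p) (Nat.cast_nonneg q)
  have h4 : (1 : ℝ) ≤ |(((p : ℤ) * u ^ 2 + q * v ^ 2 - k ^ 2) ^ 2 - 4 * (p * q) * (u * v) ^ 2 : ℤ)| := by
    exact_mod_cast Int.one_le_abs (norm_ne hp hq hpq u v k hu)
  have h5 : (((((p : ℤ) * u ^ 2 + q * v ^ 2 - k ^ 2) ^ 2 - 4 * (p * q) * (u * v) ^ 2 : ℤ)) : ℝ) =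
      ((p : ℝ) * (u : ℝ) ^ 2 + q * (v : ℝ) ^ 2 - (k : ℝ) ^ 2) ^ 2 -
        4 * (p * q) * ((u : ℝ) * v) ^ 2 := by
    push_cast
    ring
  have h6 : (1 : ℝ) ≤ |((p : ℝ) * (u : ℝ) ^ 2 + q * (v : ℝ) ^ 2 - (k : ℝ) ^ 2) ^ 2 -
        4 * (p * q) * ((u : ℝ) * v) ^ 2| := by
    rw [← h5]
    exact_mod_cast h4
  rw [← hn, abs_mul, abs_mul, abs_mul] at h6
  refine h6.trans (mul_le_mul_of_nonneg_left ?_ (abs_nonneg _))
  have hC : 0 ≤ C := (abs_nonneg _).trans h1
  calc |Real.sqrt p * u - Real.sqrt q * v + k| * (|Real.sqrt p * u + Real.sqrt q * v - k| *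
        |Real.sqrt p * u + Real.sqrt q * v + k|) ≤ C * (C * C) :=
        mul_le_mul h1 (mul_le_mul h2 h3 (abs_nonneg _) hC) (by positivity) hC
    _ = C ^ 3 := by ring

/-- the primes -/
noncomputable def pr (i : ℕ) : ℕ := Nat.nth Nat.Prime i

theorem pr_prime (i : ℕ) : (pr i).Prime := Nat.prime_nth_prime i

theorem pr_ne {i j : ℕ} (h : i ≠ j) : pr i ≠ pr j := fun e =>
  h (Nat.nth_injective Nat.infinite_setOfPred_prime e)

/-- the matrix with the entries `√(p_i)` at the places `(i, i + 1)` (cyclically) and `0` elsewhere,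
`p_i` being the `i`-th prime; of size `m + 2` -/
noncomputable def mat (m : ℕ) : Matrix (Fin (m + 2)) (Fin (m + 2)) ℝ := fun i j =>
  if j = i + 1 then Real.sqrt (pr i) else 0

theorem mat_mulVec (m : ℕ) (l : ℝ) (y : Fin (m + 2) → ℝ) (i : Fin (m + 2)) :
    (mat m - l • (1 : Matrix (Fin (m + 2)) (Fin (m + 2)) ℝ)).mulVec y i =
      Real.sqrt (pr i) * y (i + 1) - l * y i := by
  rw [Matrix.sub_mulVec, Matrix.smul_mulVec, Matrix.one_mulVec]
  have : (mat m).mulVec y i = Real.sqrt (pr i) * y (i + 1) := by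
    unfold mat Matrix.mulVec dotProduct
    simp
  rw [Pi.sub_apply, this]
  rfl

theorem no_shift (m : ℕ) (l : ℝ) :
    ¬ IsLiouville (mat m - l • (1 : Matrix (Fin (m + 2)) (Fin (m + 2)) ℝ)) := by
  rintro ⟨-, h⟩
  -- a constant
  set S : ℝ := ∑ i : Fin (m + 2), Real.sqrt (pr i) with hS
  have hSi : ∀ i : Fin (m + 2), Real.sqrt (pr i) ≤ S := fun i =>
    Finset.single_le_sum (f := fun i : Fin (m + 2) => Real.sqrt (pr i))
      (fun j _ => Real.sqrt_nonneg _) (Finset.mem_univ i)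
  have hS0 : 0 ≤ S := Finset.sum_nonneg fun i _ => Real.sqrt_nonneg _
  set C : ℝ := 4 * S + 1 with hC
  have hC1 : 1 ≤ C := by rw [hC]; linarith
  obtain ⟨N, hN⟩ := pow_unbounded_of_one_lt (2 * C ^ 3) (by norm_num : (1 : ℝ) < 2)
  obtain ⟨x, y, hy, hxy⟩ := h ((N + 7 : ℕ) : ℝ) (by positivity)
  set Y : ℝ := ‖toReal y‖ with hY
  set B := mat m - l • (1 : Matrix (Fin (m + 2)) (Fin (m + 2)) ℝ) with hB
  set e : Fin (m + 2) → ℝ := B.mulVec (toReal y) - toReal x with he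
  have hY0 : 0 < Y := by linarith
  -- the largest coordinate
  obtain ⟨j, hj⟩ : ∃ j, |(y j : ℝ)| = Y := by
    obtain ⟨j, -, hj⟩ := Finset.exists_max_image Finset.univ (fun j => |(y j : ℝ)|)
      Finset.univ_nonempty
    refine ⟨j, le_antisymm (norm_le_pi_norm (toReal y) j) ?_⟩
    rw [hY, pi_norm_le_iff_of_nonneg (abs_nonneg _)]
    intro i
    exact hj i (Finset.mem_univ i)
  have hyi : ∀ i, |(y i : ℝ)| ≤ Y := fun i => norm_le_pi_norm (toReal y) i
  -- `Y ≥ 2`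
  have hY2 : 2 ≤ Y := by
    rw [← hj] at hy ⊢
    have h1 : (1 : ℤ) < |y j| := by exact_mod_cast hy
    have h2 : (2 : ℤ) ≤ |y j| := by omega
    exact_mod_cast h2
  have hxy' : ‖e‖ < (Y ^ (N + 7))⁻¹ := by
    rw [Real.rpow_neg hY0.le, Real.rpow_natCast] at hxy
    exact hxy
  obtain ⟨i, rfl⟩ : ∃ i : Fin (m + 2), j = i + 1 := ⟨j - 1, (sub_add_cancel j 1).symm⟩
  have hee : ∀ i, |e i| ≤ (Y ^ (N + 7))⁻¹ := fun i => (norm_le_pi_norm e i).trans hxy'.le
  have e1 : e i = Real.sqrt (pr i) * y (i + 1) - l * y i - x i := by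
    rw [he, Pi.sub_apply, hB, mat_mulVec]
    rfl
  have e2 : e (i + 1) = Real.sqrt (pr (i + 1 : Fin (m + 2))) * y (i + 1 + 1) -
      l * y (i + 1) - x (i + 1) := by
    rw [he, Pi.sub_apply, hB, mat_mulVec]
    rfl
  set u : ℤ := y (i + 1) ^ 2 with hu
  set v : ℤ := y i * y (i + 1 + 1) with hv
  set k : ℤ := x i * y (i + 1) - x (i + 1) * y i with hk
  have key : Real.sqrt (pr i) * u - Real.sqrt (pr (i + 1 : Fin (m + 2))) * v - k =
      y (i + 1) * e i - y i * e (i + 1) := by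
    rw [e1, e2, hu, hv, hk]
    push_cast
    ring
  set T : ℝ := |Real.sqrt (pr i) * u - Real.sqrt (pr (i + 1 : Fin (m + 2))) * v - k| with hT
  have hTle : T ≤ 2 * Y * (Y ^ (N + 7))⁻¹ := by
    rw [hT, key]
    refine (abs_sub _ _).trans ?_
    rw [abs_mul, abs_mul]
    have a1 := mul_le_mul (hyi (i + 1)) (hee i) (abs_nonneg _) hY0.le
    have a2 := mul_le_mul (hyi i) (hee (i + 1)) (abs_nonneg _) hY0.le
    linarith
  have hYN : 2 * Y * (Y ^ (N + 7))⁻¹ ≤ 1 := by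
    rw [mul_inv_le_iff₀ (by positivity), one_mul]
    calc 2 * Y ≤ Y * Y := by nlinarith
      _ = Y ^ 2 := by ring
      _ ≤ Y ^ (N + 7) := pow_le_pow_right₀ (by linarith) (by omega)
  have hT1 : T ≤ 1 := hTle.trans hYN
  have hu1 : |(u : ℝ)| ≤ Y ^ 2 := by
    rw [hu]
    push_cast
    rw [abs_of_nonneg (sq_nonneg _), ← sq_abs]
    exact pow_le_pow_left₀ (abs_nonneg _) (hyi _) 2
  have hv1 : |(v : ℝ)| ≤ Y ^ 2 := by
    rw [hv]
    push_cast
    rw [abs_mul]
    calc |(y i : ℝ)| * |(y (i + 1 + 1) : ℝ)| ≤ Y * Y :=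
          mul_le_mul (hyi _) (hyi _) (abs_nonneg _) hY0.le
      _ = Y ^ 2 := by ring
  have hu2 : |Real.sqrt (pr i) * u| ≤ S * Y ^ 2 := by
    rw [abs_mul, abs_of_nonneg (Real.sqrt_nonneg _)]
    exact mul_le_mul (hSi i) hu1 (abs_nonneg _) hS0
  have hv2 : |Real.sqrt (pr (i + 1 : Fin (m + 2))) * v| ≤ S * Y ^ 2 := by
    rw [abs_mul, abs_of_nonneg (Real.sqrt_nonneg _)]
    exact mul_le_mul (hSi (i + 1)) hv1 (abs_nonneg _) hS0
  have hY21 : 1 ≤ Y ^ 2 := by nlinarith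
  have hk2 : |(k : ℝ)| ≤ 2 * S * Y ^ 2 + 1 := by
    have e3 : (k : ℝ) = Real.sqrt (pr i) * u - Real.sqrt (pr (i + 1 : Fin (m + 2))) * v -
        (Real.sqrt (pr i) * u - Real.sqrt (pr (i + 1 : Fin (m + 2))) * v - k) := by ring
    rw [e3]
    refine (abs_sub _ _).trans ?_
    have a3 := abs_sub (Real.sqrt (pr i) * u) (Real.sqrt (pr (i + 1 : Fin (m + 2))) * v)
    linarith
  have hCY : 4 * S * Y ^ 2 + 1 ≤ C * Y ^ 2 := by rw [hC]; nlinarith
  have b1 : |Real.sqrt (pr i) * u - Real.sqrt (pr (i + 1 : Fin (m + 2))) * v + k| ≤ C * Y ^ 2 := by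
    refine (abs_add_le _ _).trans ?_
    have a3 := abs_sub (Real.sqrt (pr i) * u) (Real.sqrt (pr (i + 1 : Fin (m + 2))) * v)
    linarith
  have b2 : |Real.sqrt (pr i) * u + Real.sqrt (pr (i + 1 : Fin (m + 2))) * v - k| ≤ C * Y ^ 2 := by
    refine (abs_sub _ _).trans ?_
    have a3 := abs_add_le (Real.sqrt (pr i) * u) (Real.sqrt (pr (i + 1 : Fin (m + 2))) * v)
    linarith
  have b3 : |Real.sqrt (pr i) * u + Real.sqrt (pr (i + 1 : Fin (m + 2))) * v + k| ≤ C * Y ^ 2 := by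
    refine (abs_add_le _ _).trans ?_
    have a3 := abs_add_le (Real.sqrt (pr i) * u) (Real.sqrt (pr (i + 1 : Fin (m + 2))) * v)
    linarith
  have hne : pr i ≠ pr (i + 1 : Fin (m + 2)) := by
    apply pr_ne
    intro h0
    have h1 : i = i + 1 := Fin.ext h0
    have h2 : (1 : Fin (m + 2)) = 0 := by
      have := h1.symm
      exact add_eq_left.1 this
    exact absurd h2 (by simp)
  have hu0 : u ≠ 0 := by
    rw [hu]
    apply pow_ne_zero
    intro h0
    rw [h0] at hj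
    simp at hj
    linarith
  have hlow := lower (pr_prime i) (pr_prime _) hne u v k hu0 (C * Y ^ 2) b1 b2 b3
  rw [← hT] at hlow
  have hfin : T * (C * Y ^ 2) ^ 3 ≤ 2 * C ^ 3 * (Y ^ N)⁻¹ := by
    calc T * (C * Y ^ 2) ^ 3 ≤ (2 * Y * (Y ^ (N + 7))⁻¹) * (C * Y ^ 2) ^ 3 :=
          mul_le_mul_of_nonneg_right hTle (by positivity)
      _ = 2 * C ^ 3 * (Y ^ N)⁻¹ := by
          rw [pow_add]
          field_simp
  have hpow : (2 : ℝ) ^ N ≤ Y ^ N := pow_le_pow_left₀ (by norm_num) hY2 N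
  have hlast : 2 * C ^ 3 * (Y ^ N)⁻¹ < 1 := by
    rw [mul_inv_lt_iff₀ (by positivity), one_mul]
    linarith
  linarith

/-- the case `n = 1`: shifts of a number to a Liouville number -/
theorem one_dim (A : Matrix (Fin 1) (Fin 1) ℝ) :
    ∃ l : ℝ, IsLiouville (A - l • (1 : Matrix (Fin 1) (Fin 1) ℝ)) := by
  have hL : Liouville (liouvilleNumber 2) := by
    have := liouville_liouvilleNumber (m := 2) le_rfl
    exact_mod_cast this
  set L := liouvilleNumber 2 with hLdef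
  refine ⟨A 0 0 - L, ?_, ?_⟩
  · intro y x hyx h
    have h0 := congrFun h 0
    simp only [Matrix.mulVec, dotProduct, Finset.univ_unique, Fin.default_eq_zero,
      Finset.sum_singleton, Matrix.sub_apply, Matrix.smul_apply, Matrix.one_apply_eq, smul_eq_mul,
      mul_one, toReal] at h0
    have h1 : L * (y 0 : ℝ) = x 0 := by linarith
    by_cases hy : y 0 = 0
    · rw [hy] at h1
      simp only [Int.cast_zero, mul_zero] at h1
      have hx : x 0 = 0 := by exact_mod_cast h1.symm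
      rcases hyx with h2 | h2
      · exact h2 (funext fun i => by rw [Subsingleton.elim i 0]; exact hy)
      · exact h2 (funext fun i => by rw [Subsingleton.elim i 0]; exact hx)
    · apply hL.irrational
      refine ⟨(x 0 : ℚ) / y 0, ?_⟩
      push_cast
      have : (y 0 : ℝ) ≠ 0 := by exact_mod_cast hy
      field_simp
      linarith
  · intro N _
    obtain ⟨n, hn⟩ := exists_nat_ge (N + 1)
    obtain ⟨a, b, hb, _, hab⟩ := hL n
    refine ⟨fun _ => a, fun _ => b, ?_, ?_⟩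
    · rw [show (toReal (fun _ : Fin 1 => b)) = fun _ : Fin 1 => (b : ℝ) from rfl, pi_norm_const,
        Real.norm_eq_abs]
      have : (1 : ℝ) < b := by exact_mod_cast hb
      exact this.trans_le (le_abs_self _)
    · have hb1 : (1 : ℝ) < b := by exact_mod_cast hb
      have hb0 : (0 : ℝ) < b := by linarith
      have e1 : (A - (A 0 0 - L) • (1 : Matrix (Fin 1) (Fin 1) ℝ)).mulVec
          (toReal (fun _ : Fin 1 => b)) - toReal (fun _ : Fin 1 => a) =
          fun _ : Fin 1 => L * b - a := by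
        funext i
        rw [Subsingleton.elim i 0]
        simp only [Matrix.mulVec, dotProduct, Finset.univ_unique, Fin.default_eq_zero,
          Finset.sum_singleton, Matrix.sub_apply, Matrix.smul_apply, Matrix.one_apply_eq,
          smul_eq_mul, mul_one, toReal, Pi.sub_apply]
        ring
      rw [e1, show (toReal (fun _ : Fin 1 => b)) = fun _ : Fin 1 => (b : ℝ) from rfl,
        pi_norm_const, pi_norm_const, Real.norm_eq_abs, Real.norm_eq_abs, abs_of_pos hb0]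
      have e2 : L * b - a = b * (L - a / b) := by field_simp
      rw [e2, abs_mul, abs_of_pos hb0]
      calc (b : ℝ) * |L - a / b| < b * (1 / (b : ℝ) ^ n) := mul_lt_mul_of_pos_left hab hb0
        _ = (b : ℝ) ^ (1 - (n : ℝ)) := by
            rw [Real.rpow_sub hb0, Real.rpow_one, Real.rpow_natCast]
            ring
        _ ≤ (b : ℝ) ^ (-N) := Real.rpow_le_rpow_of_exponent_le hb1.le (by linarith)

/-- **`X_A` is non-empty for all `A` if and only if `n = 1`.** For `n ≥ 1`, every real `n × n` matrix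
`A` has a scalar shift `A - λ I` (`λ` real) which is a Liouville matrix, if and only if `n = 1`. -/
theorem result (n : ℕ) (hn : 1 ≤ n) :
    (∀ A : Matrix (Fin n) (Fin n) ℝ, ∃ l : ℝ,
      IsLiouville (A - l • (1 : Matrix (Fin n) (Fin n) ℝ))) ↔ n = 1 := by
  constructor
  · intro h
    by_contra hne
    obtain ⟨m, rfl⟩ : ∃ m, n = m + 2 := ⟨n - 2, by omega⟩
    obtain ⟨l, hl⟩ := h (mat m)
    exact no_shift m l hl
  · rintro rfl A
    exact one_dim A

end Pool.Agent.Results.MP_14d1e0_nt.NoLiouvilleShift
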